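import Pool.Agent.Helper88.QR.DefsB

/-!
# Small library on `Hit`
-/

namespace QRB

open QR

variable {X : Type}

theorem Hit.p {π : Equiv.Perm X} {p : X → Prop} {x y : X} (h : Hit π p x y) : p y := by
  obtain ⟨k, _, _, h3, _⟩ := h
  exact h3

theorem Hit.sameCycle {π : Equiv.Perm X} {p : X → Prop} {x y : X} (h : Hit π p x y) :
    π.SameCycle x y := by
  obtain ⟨k, _, h2, _, _⟩ := h
  exact ⟨k, by simpa using h2⟩

/-- the first hit is unique -/
theorem Hit.unique {π : Equiv.Perm X} {p : X → Prop} {x y y' : X} (h : Hit π p x y)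
    (h' : Hit π p x y') : y = y' := by
  obtain ⟨k, h1, h2, h3, h4⟩ := h
  obtain ⟨k', h1', h2', h3', h4'⟩ := h'
  rcases lt_trichotomy k k' with hlt | heq | hgt
  · exact absurd (h2 ▸ h3) (h4' k h1 hlt)
  · subst heq
    rw [← h2, ← h2']
  · exact absurd (h2' ▸ h3') (h4 k' h1' hgt)

/-- one step: the next element satisfies `p` -/
theorem Hit.one {π : Equiv.Perm X} {p : X → Prop} {x : X} (h : p (π x)) : Hit π p x (π x) :=
  ⟨1, one_pos, by simp, h, fun j hj hj' => absurd hj' (by omega)⟩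

/-- one step: the next element does not satisfy `p` -/
theorem Hit.step {π : Equiv.Perm X} {p : X → Prop} {x y : X} (h : ¬ p (π x))
    (h' : Hit π p (π x) y) : Hit π p x y := by
  obtain ⟨k, h1, h2, h3, h4⟩ := h'
  refine ⟨k + 1, Nat.succ_pos k, ?_, h3, ?_⟩
  · rw [pow_succ, Equiv.Perm.mul_apply]
    exact h2
  · intro j hj hj'
    rcases Nat.exists_eq_succ_of_ne_zero (Nat.pos_iff_ne_zero.1 hj) with ⟨i, rfl⟩
    rw [Nat.succ_eq_add_one, pow_succ, Equiv.Perm.mul_apply]
    rcases Nat.eq_zero_or_pos i with h0 | h0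
    · subst h0
      simpa using h
    · exact h4 i h0 (by omega)

/-- converse of `Hit.step` -/
theorem Hit.unstep {π : Equiv.Perm X} {p : X → Prop} {x y : X} (h : ¬ p (π x))
    (h' : Hit π p x y) : Hit π p (π x) y := by
  obtain ⟨k, h1, h2, h3, h4⟩ := h'
  rcases Nat.exists_eq_succ_of_ne_zero (Nat.pos_iff_ne_zero.1 h1) with ⟨i, rfl⟩
  rw [Nat.succ_eq_add_one, pow_succ, Equiv.Perm.mul_apply] at h2
  rcases Nat.eq_zero_or_pos i with h0 | h0
  · subst h0
    exact absurd (by simpa using h2 ▸ h3) h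
  · refine ⟨i, h0, h2, h3, ?_⟩
    intro j hj hj'
    have := h4 (j + 1) (Nat.succ_pos j) (by omega)
    rwa [pow_succ, Equiv.Perm.mul_apply] at this

/-- the first element: `π x` decides -/
theorem Hit.eq_of_p {π : Equiv.Perm X} {p : X → Prop} {x y : X} (h : p (π x))
    (h' : Hit π p x y) : y = π x :=
  h'.unique (Hit.one h)

/-- existence -/
theorem Hit.exists_of_pow {π : Equiv.Perm X} {p : X → Prop} {x : X} {k : ℕ} (hk : 0 < k)
    (h : p ((π ^ k) x)) : ∃ y, Hit π p x y := by
  classical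
  have hex : ∃ j, 0 < j ∧ p ((π ^ j) x) := ⟨k, hk, h⟩
  refine ⟨(π ^ (Nat.find hex)) x, Nat.find hex, (Nat.find_spec hex).1, rfl,
    (Nat.find_spec hex).2, ?_⟩
  intro j hj hj' hp
  exact Nat.find_min hex hj' ⟨hj, hp⟩

/-- existence on finite types: some element of the cycle satisfies `p` -/
theorem Hit.exists_of_sameCycle [Finite X] {π : Equiv.Perm X} {p : X → Prop} {x z : X}
    (h : π.SameCycle x z) (hz : p z) : ∃ y, Hit π p x y := by
  obtain ⟨i, hi, _, h2⟩ := h.exists_pow_eq''
  exact Hit.exists_of_pow (k := i) hi (by rw [h2]; exact hz)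

/-- reversal -/
theorem Hit.rev {π : Equiv.Perm X} {p : X → Prop} {x y : X} (hx : p x) (h : Hit π p x y) :
    Hit π⁻¹ p y x := by
  obtain ⟨k, h1, h2, h3, h4⟩ := h
  refine ⟨k, h1, ?_, hx, ?_⟩
  · rw [← h2, inv_pow, Equiv.Perm.inv_eq_iff_eq]
  · intro j hj hj' hp
    apply h4 (k - j) (by omega) (by omega)
    have : (π⁻¹ ^ j) y = (π ^ (k - j)) x := by
      rw [← h2, inv_pow, Equiv.Perm.inv_eq_iff_eq, ← Equiv.Perm.mul_apply, ← pow_add]
      congr 2
      omega
    rwa [← this]

/-- reversal, second form -/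
theorem Hit.rev' {π : Equiv.Perm X} {p : X → Prop} {x y : X} (hx : p x) (h : Hit π⁻¹ p x y) :
    Hit π p y x := by
  have := h.rev hx
  rwa [inv_inv] at this

/-- the source is determined by the target -/
theorem Hit.source_unique {π : Equiv.Perm X} {p : X → Prop} {x x' y : X} (hx : p x) (hx' : p x')
    (h : Hit π p x y) (h' : Hit π p x' y) : x = x' :=
  (h.rev hx).unique (h'.rev hx')

/-- change of the predicate -/
theorem Hit.mono {π : Equiv.Perm X} {p q : X → Prop} {x y : X} (h : Hit π p x y) (hq : q y)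
    (hpq : ∀ z, q z → p z) : Hit π q x y := by
  obtain ⟨k, h1, h2, h3, h4⟩ := h
  exact ⟨k, h1, h2, hq, fun j hj hj' hqj => h4 j hj hj' (hpq _ hqj)⟩

/-- composition: `y` is the first element with `p`, `z` the first element after `y` with `q`, and
`q` implies `p`, `q` fails at `y` -/
theorem Hit.trans {π : Equiv.Perm X} {p q : X → Prop} {x y z : X} (h : Hit π p x y)
    (h' : Hit π q y z) (hpq : ∀ w, q w → p w) (hy : ¬ q y) : Hit π q x z := by
  obtain ⟨k, h1, h2, h3, h4⟩ := h
  obtain ⟨l, g1, g2, g3, g4⟩ := h'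
  refine ⟨k + l, by omega, ?_, g3, ?_⟩
  · rw [add_comm k l, pow_add, Equiv.Perm.mul_apply, h2, g2]
  · intro j hj hj' hq
    rcases lt_trichotomy j k with hlt | heq | hgt
    · exact h4 j hj hlt (hpq _ hq)
    · subst heq
      exact hy (h2 ▸ hq)
    · apply g4 (j - k) (by omega) (by omega)
      have : (π ^ (j - k)) y = (π ^ j) x := by
        rw [← h2, ← Equiv.Perm.mul_apply, ← pow_add]
        congr 2
        omega
      rwa [this]

/-- the first return map of a permutation to a set -/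
theorem exists_firstReturn [Finite X] (π : Equiv.Perm X) (p : X → Prop) :
    ∃ f : Equiv.Perm {x // p x}, ∀ x, Hit π p x.1 (f x).1 := by
  have hex : ∀ x : {x // p x}, ∃ y : {x // p x}, Hit π p x.1 y.1 := by
    intro x
    obtain ⟨y, hy⟩ := Hit.exists_of_sameCycle (π := π) (p := p) (x := x.1) (z := x.1)
      (Equiv.Perm.SameCycle.refl π x.1) x.2
    exact ⟨⟨y, hy.p⟩, hy⟩
  choose f hf using hex
  have hinj : Function.Injective f := by
    intro a b hab
    have h1 := hf a
    have h2 := hf b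
    rw [← hab] at h2
    exact Subtype.ext (h1.source_unique a.2 b.2 h2)
  exact ⟨Equiv.ofBijective f (Finite.injective_iff_bijective.1 hinj), fun x => hf x⟩

/-- transport of hits by an equivalence which commutes -/
theorem Hit.map {Y : Type} {π : Equiv.Perm X} {ρ : Equiv.Perm Y} {p : X → Prop} {q : Y → Prop}
    (e : X → Y) (he : ∀ x, e (π x) = ρ (e x)) (hpq : ∀ x, p x ↔ q (e x)) {x y : X}
    (h : Hit π p x y) : Hit ρ q (e x) (e y) := by
  obtain ⟨k, h1, h2, h3, h4⟩ := h
  have hk : ∀ n : ℕ, e ((π ^ n) x) = (ρ ^ n) (e x) := by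
    intro n
    induction n with
    | zero => simp
    | succ n ih => rw [pow_succ', Equiv.Perm.mul_apply, he, ih, pow_succ', Equiv.Perm.mul_apply]
  refine ⟨k, h1, by rw [← hk, h2], (hpq _).1 h3, ?_⟩
  intro j hj hj' hq
  rw [← hk] at hq
  exact h4 j hj hj' ((hpq _).2 hq)

end QRB
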