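import Pool.Agent.Helper88.QR.FinalB0
import Pool.Agent.Helper27.QR.B02

/-!
# Block B of QR: final theorem
-/

namespace QR

/-- the code of a pointed quadrangulation with a general boundary -/
theorem st_B : ST_B := QRB.st_B_of_B02 QRB.st_B02

end QR
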