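import Pool.Agent.Helper88.QR.StmtsB
import Pool.Agent.Helper88.QR.HitB

/-!
# Block B of QR: assembly, part a
-/

namespace QRB

noncomputable section

open QR Classical

/-- `c` is the code of the pointed map `(m, o, v0)` -/
def CodeOf {D : Type} (m : RMap D) (o : D) (v0 : m.Vert) {P : ℕ} (c : Code P) : Prop :=
  (∀ i, c.b i = (lamD m v0 ((m.face ^ i) o) : ℤ)) ∧
  ∃ τ α : Equiv.Perm (Dn m (lamD m v0)), MCode m (lamD m v0) τ α ∧
    ∀ (i : ℤ) (h : Des m (lamD m v0) ((m.face ^ i) o)),
      Enc τ α (lb m (lamD m v0)) (c.t i) (τ (α⁻¹ ⟨(m.face ^ i) o, h⟩)) ⟨(m.face ^ i) o, h⟩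

theorem ap_inv {C : Type} (α : Equiv.Perm C) (x : C) : α (α⁻¹ x) = x := α.apply_symm_apply x

/-- the period of a cycle is its cardinality -/
theorem pow_card_cycle {D : Type} [Finite D] (π : Equiv.Perm D) (d : D) :
    (π ^ (Nat.card {d' : D // π.SameCycle d d'})) d = d := by
  have : Fintype (MulAction.orbit (Subgroup.zpowers π) d) := Fintype.ofFinite _
  have h := MulAction.minimalPeriod_eq_card (α := Equiv.Perm D) (a := π) (b := d)
  have he : Nat.card {d' : D // π.SameCycle d d'} =
      Nat.card (MulAction.orbit (Subgroup.zpowers π) d) := by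
    apply Nat.card_congr
    refine Equiv.subtypeEquivRight ?_
    intro x
    constructor
    · rintro ⟨i, hi⟩
      exact ⟨⟨π ^ i, i, rfl⟩, hi⟩
    · rintro ⟨⟨g, i, hi⟩, hg⟩
      refine ⟨i, ?_⟩
      have : π ^ i = g := hi
      rw [this]
      exact hg
  rw [he, Nat.card_eq_fintype_card, ← h]
  have := Function.isPeriodicPt_minimalPeriod (fun x => π • x) d
  have h2 : ∀ n : ℕ, (fun x => π • x)^[n] d = (π ^ n) d := by
    intro n
    induction n with
    | zero => simp
    | succ n ih =>
      rw [Function.iterate_succ_apply', ih, pow_succ', Equiv.Perm.mul_apply]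
      rfl
  rw [← h2]
  exact this

theorem face_per {D : Type} [Fintype D] {m : RMap D} {o : D} {P : ℕ} (h : m.fdeg o = 2 * P)
    (i : ℤ) : (m.face ^ (i + 2 * P)) o = (m.face ^ i) o := by
  have h1 := pow_card_cycle m.face o
  have h2 : Nat.card {d' : D // m.face.SameCycle o d'} = 2 * P := h
  rw [h2] at h1
  rw [zpow_add, Equiv.Perm.mul_apply]
  have h3 : (2 * (P : ℤ)) = ((2 * P : ℕ) : ℤ) := by push_cast; ring
  rw [h3, zpow_natCast, h1]

theorem lam_face {D : Type} {m : RMap D} {lam : D → ℕ} (hp : PLM m lam) (d : D) :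
    lam (m.face d) = lam (m.opp d) := by
  have : m.face d = m.rot (m.opp d) := rfl
  rw [this, hp.rot]

theorem face_add_one {D : Type} (m : RMap D) (o : D) (i : ℤ) :
    (m.face ^ (i + 1)) o = m.face ((m.face ^ i) o) := by
  rw [add_comm, zpow_add, zpow_one, Equiv.Perm.mul_apply]

theorem fc_face_zpow {D : Type} (m : RMap D) (o : D) (i : ℤ) : m.fc ((m.face ^ i) o) = m.fc o := by
  apply Quotient.sound
  exact Equiv.Perm.SameCycle.symm (⟨i, rfl⟩ : m.face.SameCycle o ((m.face ^ i) o))

theorem fc_eq_iff {D : Type} (m : RMap D) (d d' : D) : m.fc d = m.fc d' ↔ m.face.SameCycle d d' :=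
  ⟨fun h => Quotient.exact h, fun h => Quotient.sound h⟩

theorem tail_eq_iff {D : Type} (m : RMap D) (d d' : D) :
    m.tail d = m.tail d' ↔ m.rot.SameCycle d d' :=
  ⟨fun h => Quotient.exact h, fun h => Quotient.sound h⟩

/-- existence of the code -/
theorem exists_code (h02 : ST_B02) (h04 : ST_B04) (h08 : ST_B08) (h15 : ST_B15)
    {D : Type} [Fintype D] (m : RMap D) (o : D) (N P : ℕ) (v0 : m.Vert) (hP : 1 ≤ P)
    (hq : m.IsQuad o N P) : ∃ c : Code P, CodeOf m o v0 c := by
  obtain ⟨hp, hz, _⟩ := h15 D m o N P v0 hq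
  obtain ⟨τ, α, hm⟩ := h02 D m (lamD m v0) hp
  obtain ⟨_, _, _, vt, hvt, hL⟩ := h04 D m o N P (lamD m v0) v0 τ α hP hq hp hz hm
  obtain ⟨T, hT⟩ := h08 _ _ _ τ α _ vt _ _ hL
  have hstep : ∀ i : ℤ, lamD m v0 ((m.face ^ (i + 1)) o) = lamD m v0 (m.opp ((m.face ^ i) o)) := by
    intro i
    rw [face_add_one, lam_face hp]
  refine ⟨{ b := fun i => (lamD m v0 ((m.face ^ i) o) : ℤ)
            t := fun i => if h : Des m (lamD m v0) ((m.face ^ i) o) then
              T (α⁻¹ ⟨(m.face ^ i) o, h⟩) else LT.nil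
            step := ?_
            up := ?_
            per_b := ?_
            per_t := ?_ }, ?_, τ, α, hm, ?_⟩
  · intro i
    simp only [hstep]
    rcases hp.opp ((m.face ^ i) o) with h | h
    · left
      rw [h]
      push_cast
      ring
    · right
      rw [← h]
      push_cast
      ring
  · intro i hi
    simp only [hstep] at hi
    have hn : ¬ Des m (lamD m v0) ((m.face ^ i) o) := by
      intro h
      unfold Des at h
      omega
    simp only [hn, dite_false]
  · intro i
    simp only [face_per hq.outer]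
  · intro i
    simp only [face_per hq.outer]
  · intro i
    rfl
  · intro i h
    simp only [h, dite_true]
    have ho : m.fc (α⁻¹ ⟨(m.face ^ i) o, h⟩ : Dn m (lamD m v0)).1 = m.fc o := by
      have h1 := hL.fc_eq (α⁻¹ ⟨(m.face ^ i) o, h⟩)
      simp only [ap_inv] at h1
      rw [← h1]
      exact fc_face_zpow m o i
    have h2 := hT.enc _ ho
    rwa [ap_inv] at h2

end

end QRB
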