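import Pool.Agent.Helper88.QR.B19a

/-!
# Block B of QR: assembly, part b: properties of the code
-/

namespace QRB

noncomputable section

open QR Classical

variable {D : Type}

/-- sums over the outer corners `b` and over their images `α b` -/
theorem sum_outer {C F : Type} [Fintype C] (α : Equiv.Perm C) (fc : C → F) (O : F)
    (h : ∀ c, fc (α c) = fc c) (g : C → ℕ) :
    ∑ c with fc c = O, g c = ∑ b with fc b = O, g (α b) := by
  symm
  apply Finset.sum_bij (fun b _ => α b)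
  · intro b hb
    simp only [Finset.mem_filter, Finset.mem_univ, true_and] at hb ⊢
    rw [h, hb]
  · intro a _ b _ hab
    exact α.injective hab
  · intro c hc
    simp only [Finset.mem_filter, Finset.mem_univ, true_and] at hc
    refine ⟨α⁻¹ c, ?_, ap_inv α c⟩
    simp only [Finset.mem_filter, Finset.mem_univ, true_and]
    rw [← h, ap_inv, hc]
  · intro b _
    rfl

/-- all data around a code -/
structure Data [Fintype D] (m : RMap D) (o : D) (N P : ℕ) (v0 : m.Vert) (c : Code P)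
    (τ α : Equiv.Perm (Dn m (lamD m v0))) (vt : Dn m (lamD m v0) → {v : m.Vert // v ≠ v0})
    (T : Dn m (lamD m v0) → LT) : Prop where
  plm : PLM m (lamD m v0)
  zero : ∀ d, lamD m v0 d = 0 ↔ m.tail d = v0
  near : ∀ (d : D) (r : ℕ), lamD m v0 d ≤ r ↔ SPR.Near m.mult r v0 (m.tail d)
  mc : MCode m (lamD m v0) τ α
  cC : Nat.card (Dn m (lamD m v0)) = 2 * N + P
  cV : Nat.card {v : m.Vert // v ≠ v0} = N + P
  cO : Nat.card {c : Dn m (lamD m v0) // m.fc c.1 = m.fc o} = P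
  hvt : ∀ c, (vt c).1 = m.tail c.1
  lc : LCode τ α (lb m (lamD m v0)) vt (fun c => m.fc c.1) (m.fc o)
  ta : TreeAt τ α (lb m (lamD m v0)) (fun c => m.fc c.1) (m.fc o) T
  hb : ∀ i, c.b i = (lamD m v0 ((m.face ^ i) o) : ℤ)
  ht : ∀ (i : ℤ) (h : Des m (lamD m v0) ((m.face ^ i) o)), c.t i = T (α⁻¹ ⟨(m.face ^ i) o, h⟩)

theorem exists_data (h04 : ST_B04) (h08 : ST_B08) (h10 : ST_B10) (h15 : ST_B15)
    [Fintype D] (m : RMap D) (o : D) (N P : ℕ) (v0 : m.Vert) (hP : 1 ≤ P)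
    (hq : m.IsQuad o N P) (c : Code P) (hc : CodeOf m o v0 c) :
    ∃ τ α vt T, Data m o N P v0 c τ α vt T := by
  obtain ⟨hp, hz, hn⟩ := h15 D m o N P v0 hq
  obtain ⟨hb, τ, α, hm, he⟩ := hc
  obtain ⟨hC, hV, hO, vt, hvt, hL⟩ := h04 D m o N P (lamD m v0) v0 τ α hP hq hp hz hm
  obtain ⟨T, hT⟩ := h08 _ _ _ τ α _ vt _ _ hL
  refine ⟨τ, α, vt, T, hp, hz, hn, hm, hC, hV, hO, hvt, hL, hT, hb, ?_⟩
  intro i h
  have ho : m.fc (α⁻¹ ⟨(m.face ^ i) o, h⟩ : Dn m (lamD m v0)).1 = m.fc o := by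
    have h1 := hL.fc_eq (α⁻¹ ⟨(m.face ^ i) o, h⟩)
    simp only [ap_inv] at h1
    rw [← h1]
    exact fc_face_zpow m o i
  have h2 := hT.enc _ ho
  rw [ap_inv] at h2
  exact (h10 _ τ α _ _ _ _ h2).2.1 _ (he i h)

section

variable [Fintype D] {m : RMap D} {o : D} {N P : ℕ} {v0 : m.Vert} {c : Code P}
    {τ α : Equiv.Perm (Dn m (lamD m v0))} {vt : Dn m (lamD m v0) → {v : m.Vert // v ≠ v0}}
    {T : Dn m (lamD m v0) → LT}

theorem Data.b_eq (H : Data m o N P v0 c τ α vt T) :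
    c.b = fun i => (lamD m v0 ((m.face ^ i) o) : ℤ) := funext H.hb

theorem Data.des (H : Data m o N P v0 c τ α vt T) (i : ℤ) :
    c.b (i + 1) = c.b i - 1 ↔ Des m (lamD m v0) ((m.face ^ i) o) := by
  rw [H.hb, H.hb, face_add_one, lam_face H.plm]
  unfold Des
  omega

/-- sums over the down steps as sums over the outer corners -/
theorem Data.sum (h17 : ST_B17) (hP : 1 ≤ P) (hq : m.IsQuad o N P)
    (H : Data m o N P v0 c τ α vt T) (g : ℤ → LT → ℕ) :
    ∑ i ∈ dn P c.b, g (c.b i) (c.t i) =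
      ∑ b with m.fc b.1 = m.fc o, g (lb m (lamD m v0) (α b) : ℤ) (T b) := by
  have h1 := h17 D m o P (lamD m v0) H.plm hq.outer hP
    (fun d => if h : Des m (lamD m v0) d then g (lamD m v0 d : ℤ) (T (α⁻¹ ⟨d, h⟩)) else 0)
  have h2 : ∑ i ∈ dn P c.b, g (c.b i) (c.t i) =
      ∑ i ∈ dn P (fun i => (lamD m v0 ((m.face ^ i) o) : ℤ)),
        (fun d => if h : Des m (lamD m v0) d then g (lamD m v0 d : ℤ) (T (α⁻¹ ⟨d, h⟩)) else 0)
          ((m.face ^ i) o) := by
    rw [← H.b_eq]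
    apply Finset.sum_congr rfl
    intro i hi
    have hd : Des m (lamD m v0) ((m.face ^ i) o) := by
      rw [← H.des]
      unfold dn at hi
      exact (Finset.mem_filter.1 hi).2
    simp only [hd, dite_true]
    rw [H.ht i hd, H.hb i]
  rw [h2, h1]
  have h3 : ∀ x : Dn m (lamD m v0),
      (if h : Des m (lamD m v0) x.1 then g (lamD m v0 x.1 : ℤ) (T (α⁻¹ ⟨x.1, h⟩)) else 0) =
        g (lamD m v0 x.1 : ℤ) (T (α⁻¹ x)) := by
    intro x
    simp only [x.2, dite_true]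
  simp only [h3]
  have h4 := sum_outer α (fun c : Dn m (lamD m v0) => m.fc c.1) (m.fc o) H.lc.fc_eq
    (fun x => g (lamD m v0 x.1 : ℤ) (T (α⁻¹ x)))
  have h5 : ∀ b : Dn m (lamD m v0), α⁻¹ (α b) = b := fun b => α.symm_apply_apply b
  simp only [h5] at h4
  convert h4
  rfl

theorem Data.card_outer (H : Data m o N P v0 c τ α vt T) :
    (Finset.univ.filter (fun b : Dn m (lamD m v0) => m.fc b.1 = m.fc o)).card = P := by
  rw [← H.cO, Nat.card_eq_fintype_card, Fintype.card_subtype]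

theorem Data.ex_outer (hP : 1 ≤ P) (H : Data m o N P v0 c τ α vt T) :
    ∃ b : Dn m (lamD m v0), m.fc b.1 = m.fc o := by
  have h := H.card_outer
  have : 0 < (Finset.univ.filter (fun b : Dn m (lamD m v0) => m.fc b.1 = m.fc o)).card := by
    omega
  obtain ⟨b, hb⟩ := Finset.card_pos.1 this
  exact ⟨b, (Finset.mem_filter.1 hb).2⟩

/-- total sums over all corners -/
theorem Data.total (h09 : ST_B09) (hP : 1 ≤ P) (H : Data m o N P v0 c τ α vt T)
    (g : Dn m (lamD m v0) → ℕ) :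
    ∑ x, g x = ∑ b with m.fc b.1 = m.fc o, ∑ i ∈ Finset.Ico 1 (2 * (T b).edges + 2),
      g ((τ ^ i) b) := by
  have h := h09 _ _ τ α _ _ _ T H.lc.cyc (H.ex_outer hP) H.ta H.lc.fc_eq g
  convert h

theorem Data.edges (h09 : ST_B09) (hP : 1 ≤ P) (H : Data m o N P v0 c τ α vt T) :
    ∑ b with m.fc b.1 = m.fc o, (T b).edges = N := by
  have h1 := H.total h09 hP (fun _ => 1)
  simp only [Finset.sum_const, smul_eq_mul, mul_one, Nat.card_Ico, Finset.card_univ] at h1
  rw [← Nat.card_eq_fintype_card, H.cC] at h1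
  have h2 : ∑ b with m.fc b.1 = m.fc o, (2 * (T b).edges + 2 - 1) =
      2 * ∑ b with m.fc b.1 = m.fc o, (T b).edges + P := by
    have : ∀ b : Dn m (lamD m v0), 2 * (T b).edges + 2 - 1 = 2 * (T b).edges + 1 := by
      intro b
      omega
    simp only [this]
    rw [Finset.sum_add_distrib, ← Finset.mul_sum, Finset.sum_const, H.card_outer]
    simp
  omega

theorem Data.size (h09 : ST_B09) (h17 : ST_B17) (hP : 1 ≤ P) (hq : m.IsQuad o N P)
    (H : Data m o N P v0 c τ α vt T) : c.size = N := by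
  unfold Code.size
  rw [H.sum h17 hP hq (fun _ t => t.edges)]
  exact H.edges h09 hP

theorem Data.lab_eq (H : Data m o N P v0 c τ α vt T) (x : Dn m (lamD m v0)) :
    lb m (lamD m v0) (τ x) = lb m (lamD m v0) (α x) := H.mc.ve x

theorem Data.enc (H : Data m o N P v0 c τ α vt T) {b : Dn m (lamD m v0)}
    (hb : m.fc b.1 = m.fc o) : Enc τ α (lb m (lamD m v0)) (T b) (τ b) (α b) :=
  H.ta.enc b hb

theorem Data.pos (h10 : ST_B10) (H : Data m o N P v0 c τ α vt T) : c.Pos := by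
  intro i hi
  have hd := (H.des i).1 hi
  have h1 : 1 ≤ lamD m v0 ((m.face ^ i) o) := by
    unfold Des at hd
    omega
  refine ⟨by rw [H.hb]; exact_mod_cast h1, ?_⟩
  rw [H.ht i hd, H.hb i]
  set b : Dn m (lamD m v0) := α⁻¹ ⟨(m.face ^ i) o, hd⟩ with hbd
  have hab : α b = ⟨(m.face ^ i) o, hd⟩ := ap_inv α _
  have ho : m.fc b.1 = m.fc o := by
    have h1 := H.lc.fc_eq b
    simp only [hab] at h1
    rw [← h1]
    exact fc_face_zpow m o i
  have h2 := ((h10 _ τ α _ _ _ _ (H.enc ho)).2.2 H.lab_eq).2 H.lc.pos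
  rw [H.lab_eq, hab] at h2
  exact h2

theorem Data.cor (h09 : ST_B09) (h10 : ST_B10) (h16 : ST_B16) (h17 : ST_B17) (hP : 1 ≤ P)
    (hq : m.IsQuad o N P) (H : Data m o N P v0 c τ α vt T) : c.cor 1 = SPR.deg m.mult v0 := by
  unfold Code.cor
  rw [H.sum h17 hP hq (fun l t => t.cor 1 l), h16]
  have h1 : ∀ b : Dn m (lamD m v0), m.fc b.1 = m.fc o →
      (T b).cor 1 (lb m (lamD m v0) (α b)) =
        ∑ i ∈ Finset.Ico 1 (2 * (T b).edges + 2),
          (if (lb m (lamD m v0) ((τ ^ i) b) : ℤ) = 1 then 1 else 0) := by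
    intro b hb
    have h2 := ((h10 _ τ α _ _ _ _ (H.enc hb)).2.2 H.lab_eq).1 1
    rw [H.lab_eq] at h2
    rw [h2, Finset.range_eq_Ico, Finset.sum_Ico_eq_sum_range, Finset.sum_Ico_eq_sum_range]
    apply Finset.sum_congr
    · congr 1
    · intro i _
      rw [Nat.zero_add, add_comm 1 i, pow_succ, Equiv.Perm.mul_apply]
  rw [Finset.sum_congr rfl (fun b hb => h1 b (Finset.mem_filter.1 hb).2)]
  rw [← H.total h09 hP (fun x => if (lb m (lamD m v0) x : ℤ) = 1 then 1 else 0)]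
  rw [← Finset.card_filter, ← Fintype.card_subtype, ← Nat.card_eq_fintype_card]
  apply Nat.card_congr
  refine ⟨fun x => ⟨m.opp x.1.1, ?_⟩, fun d => ⟨⟨m.opp d.1, ?_⟩, ?_⟩, ?_, ?_⟩
  · rw [← H.zero]
    have h2 := x.2
    have h3 : lamD m v0 (m.opp x.1.1) + 1 = lamD m v0 x.1.1 := x.1.2
    unfold lb at h2
    omega
  · have h3 := (H.zero d.1).2 d.2
    unfold Des
    rw [m.opp_opp]
    rcases H.plm.opp d.1 with h | h
    · omega
    · omega
  · have h3 := (H.zero d.1).2 d.2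
    unfold lb
    simp only
    rcases H.plm.opp d.1 with h | h
    · omega
    · omega
  · intro x
    apply Subtype.ext
    apply Subtype.ext
    exact m.opp_opp _
  · intro d
    apply Subtype.ext
    exact m.opp_opp _

theorem Data.low (h09 : ST_B09) (h12 : ST_B12) (h17 : ST_B17) (hP : 1 ≤ P)
    (hq : m.IsQuad o N P) (H : Data m o N P v0 c τ α vt T) (r : ℕ) :
    c.low r + 1 = Nat.card {u // SPR.Near m.mult r v0 u} := by
  unfold Code.low
  rw [H.sum h17 hP hq (fun l t => (if l ≤ (r : ℤ) then 1 else 0) + t.low r l)]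
  have hV : ∑ b with m.fc b.1 = m.fc o, ((T b).edges + 1) = Nat.card {v : m.Vert // v ≠ v0} := by
    rw [Finset.sum_add_distrib, H.edges h09 hP, Finset.sum_const, H.card_outer, H.cV]
    simp
  have h12' := h12 _ _ _ τ α _ vt _ _ T H.lc H.ta (by convert hV) r
  have h13 : ∑ b with m.fc b.1 = m.fc o, ((if ((lb m (lamD m v0) (α b) : ℤ)) ≤ (r : ℤ) then 1 else 0) +
      (T b).low r (lb m (lamD m v0) (α b))) = Nat.card {v : {v : m.Vert // v ≠ v0} //
      ∃ c, vt c = v ∧ (lb m (lamD m v0) c : ℤ) ≤ r} := by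
    rw [h12']
    apply Finset.sum_congr
    · congr 1
    · intro b _
      rfl
  rw [h13]
  have hsur : ∀ u : m.Vert, u ≠ v0 → ∃ x : Dn m (lamD m v0), m.tail x.1 = u := by
    intro u hu
    obtain ⟨x, hx⟩ := H.lc.vt_surj ⟨u, hu⟩
    exact ⟨x, by rw [← H.hvt, hx]⟩
  have hex : ∀ u : {v : m.Vert // v ≠ v0},
      (∃ c, vt c = u ∧ (lb m (lamD m v0) c : ℤ) ≤ r) ↔ SPR.Near m.mult r v0 u.1 := by
    intro u
    constructor
    · rintro ⟨x, hx, hr⟩
      have h1 : m.tail x.1 = u.1 := by rw [← H.hvt, hx]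
      rw [← h1, ← H.near]
      exact_mod_cast hr
    · intro hu
      obtain ⟨x, hx⟩ := hsur u.1 u.2
      refine ⟨x, ?_, ?_⟩
      · apply Subtype.ext
        rw [H.hvt, hx]
      · rw [← hx, ← H.near] at hu
        exact_mod_cast hu
  have h0 : SPR.Near m.mult r v0 v0 := by
    obtain ⟨d, hd⟩ := H.plm.ex
    have h1 := (H.zero d).1 hd
    have h2 := (H.near d r).1 (by omega)
    rwa [h1] at h2
  have e : Option {u : {v : m.Vert // v ≠ v0} // ∃ c, vt c = u ∧ (lb m (lamD m v0) c : ℤ) ≤ r} ≃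
      {u // SPR.Near m.mult r v0 u} := by
    refine Equiv.ofBijective (fun x => match x with
      | none => ⟨v0, h0⟩
      | some u => ⟨u.1.1, (hex u.1).1 u.2⟩) ⟨?_, ?_⟩
    · intro x y hxy
      rcases x with _ | x <;> rcases y with _ | y
      · rfl
      · exact absurd (Subtype.ext_iff.1 hxy).symm y.1.2
      · exact absurd (Subtype.ext_iff.1 hxy) x.1.2
      · have h3 : x.1.1 = y.1.1 :=
          congrArg (Subtype.val : {u // SPR.Near m.mult r v0 u} → m.Vert) hxy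
        congr 1
        exact Subtype.ext (Subtype.ext h3)
    · rintro ⟨u, hu⟩
      by_cases h : u = v0
      · exact ⟨none, Subtype.ext h.symm⟩
      · exact ⟨some ⟨⟨u, h⟩, (hex ⟨u, h⟩).2 hu⟩, rfl⟩
  have hfin : Finite m.Vert := Quotient.finite _
  rw [← Nat.card_congr e, Finite.card_option]

end

end

end QRB
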