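import Pool.Agent.Helper88.QR.B19b

/-!
# Block B of QR: assembly, part c: the final statement
-/

namespace QRB

noncomputable section

open QR Classical

theorem st_ST_B (h02 : ST_B02) (h04 : ST_B04) (h08 : ST_B08) (h09 : ST_B09) (h10 : ST_B10)
    (h12 : ST_B12) (h15 : ST_B15) (h16 : ST_B16) (h17 : ST_B17) (h18 : ST_B18) : QR.ST_B := by
  intro N P hP
  have hex : ∀ y : (Σ x : {x // x ∈ GQ N P}, x.1.1.Vert),
      ∃ c : Code P, CodeOf y.1.1.1 y.1.1.2 y.2 c :=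
    fun y => exists_code h02 h04 h08 h15 y.1.1.1 y.1.1.2 N P y.2 hP y.1.2
  choose κ hκ using hex
  have hdata : ∀ y, ∃ τ α vt T, Data y.1.1.1 y.1.1.2 N P y.2 (κ y) τ α vt T :=
    fun y => exists_data h04 h08 h10 h15 y.1.1.1 y.1.1.2 N P y.2 hP y.1.2 (κ y) (hκ y)
  refine ⟨κ, ?_, ?_, ?_, ?_, ?_, ?_, ?_⟩
  · intro y
    obtain ⟨τ, α, vt, T, H⟩ := hdata y
    exact H.size h09 h17 hP y.1.2
  · intro y
    obtain ⟨τ, α, vt, T, H⟩ := hdata y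
    exact H.pos h10
  · intro y i
    obtain ⟨τ, α, vt, T, H⟩ := hdata y
    rw [H.hb]
    positivity
  · intro y i r
    obtain ⟨τ, α, vt, T, H⟩ := hdata y
    rw [H.hb, ← H.near]
    exact_mod_cast Iff.rfl
  · intro y
    obtain ⟨τ, α, vt, T, H⟩ := hdata y
    exact H.cor h09 h10 h16 h17 hP y.1.2
  · intro y r
    obtain ⟨τ, α, vt, T, H⟩ := hdata y
    exact H.low h09 h12 h17 hP y.1.2 r
  · intro c
    by_cases hne : ∃ y0, κ y0 = c
    · obtain ⟨y0, hy0⟩ := hne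
      have hΦ : ∀ y : {y // κ y = c}, ∃ Φ : Equiv.Perm (Fin (4 * N + 2 * P)),
          (∀ d, Φ (y0.1.1.1.rot d) = y.1.1.1.1.rot (Φ d)) ∧
          (∀ d, Φ (y0.1.1.1.opp d) = y.1.1.1.1.opp (Φ d)) ∧ Φ y0.1.1.2 = y.1.1.1.2 ∧
          ∀ d, lamD y.1.1.1.1 y.1.2 (Φ d) = lamD y0.1.1.1 y0.2 d := by
        rintro ⟨y, hy⟩
        obtain ⟨hp0, hz0, _⟩ := h15 _ _ _ N P y0.2 y0.1.2
        obtain ⟨hp, hz, _⟩ := h15 _ _ _ N P y.2 y.1.2
        obtain ⟨hb0, τ0, α0, hm0, he0⟩ := hκ y0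
        obtain ⟨hb, τ, α, hm, he⟩ := hκ y
        rw [hy0] at hb0 he0
        rw [hy] at hb he
        exact h18 _ _ _ _ _ _ N P _ _ _ _ τ0 α0 τ α c.t hP y0.1.2 y.1.2 hp0 hp hz0 hz hm0 hm
          (fun i => by
            have h1 := hb0 i
            have h2 := hb i
            rw [h1] at h2
            exact_mod_cast h2) he0 he
      choose Φ h1 h2 h3 h4 using hΦ
      have hinj : Function.Injective Φ := by
        intro y y' hyy
        obtain ⟨⟨⟨⟨m, o⟩, hg⟩, v⟩, hy⟩ := y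
        obtain ⟨⟨⟨⟨m', o'⟩, hg'⟩, v'⟩, hy'⟩ := y'
        have a1 := h1 ⟨⟨⟨⟨m, o⟩, hg⟩, v⟩, hy⟩
        have a2 := h2 ⟨⟨⟨⟨m, o⟩, hg⟩, v⟩, hy⟩
        have a3 := h3 ⟨⟨⟨⟨m, o⟩, hg⟩, v⟩, hy⟩
        have a4 := h4 ⟨⟨⟨⟨m, o⟩, hg⟩, v⟩, hy⟩
        have b1 := h1 ⟨⟨⟨⟨m', o'⟩, hg'⟩, v'⟩, hy'⟩
        have b2 := h2 ⟨⟨⟨⟨m', o'⟩, hg'⟩, v'⟩, hy'⟩
        have b3 := h3 ⟨⟨⟨⟨m', o'⟩, hg'⟩, v'⟩, hy'⟩
        have b4 := h4 ⟨⟨⟨⟨m', o'⟩, hg'⟩, v'⟩, hy'⟩
        rw [← hyy] at b1 b2 b3 b4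
        generalize Φ ⟨⟨⟨⟨m, o⟩, hg⟩, v⟩, hy⟩ = Ψ at a1 a2 a3 a4 b1 b2 b3 b4
        simp only at a1 a2 a3 a4 b1 b2 b3 b4
        have hrot : m.rot = m'.rot := by
          ext1 d
          obtain ⟨e, rfl⟩ := Ψ.surjective d
          rw [← a1, ← b1]
        have hopp : m.opp = m'.opp := by
          ext1 d
          obtain ⟨e, rfl⟩ := Ψ.surjective d
          rw [← a2, ← b2]
        have hmm : m = m' := RMap.ext hrot hopp
        subst hmm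
        have hoo : o = o' := by rw [← a3, ← b3]
        subst hoo
        obtain ⟨hp, hz, _⟩ := h15 _ m o N P v hg
        obtain ⟨hp', hz', _⟩ := h15 _ m o N P v' hg'
        obtain ⟨d, hd⟩ := hp.ex
        obtain ⟨e, rfl⟩ := Ψ.surjective d
        have hvv : v = v' := by
          rw [← (hz _).1 hd]
          symm
          rw [← (hz' (Ψ e)).1 (by rw [b4, ← a4, hd])]
        subst hvv
        rfl
      have hle := Nat.card_le_card_of_injective Φ hinj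
      rwa [Nat.card_eq_fintype_card (α := Equiv.Perm (Fin (4 * N + 2 * P))), Fintype.card_perm,
        Fintype.card_fin] at hle
    · have : IsEmpty {y // κ y = c} := ⟨fun y => hne ⟨y.1, y.2⟩⟩
      rw [Nat.card_of_isEmpty]
      exact Nat.zero_le _

end

end QRB
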