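import Pool.Agent.Helper98.QR.IfaceB
import Pool.Agent.Helper98.QR.IfaceD

/-!
# Block B of QR: definitions

`Hit π p x y`: `y` is the first element after `x` along the permutation `π` which satisfies `p`.
`PLM m lam`: `lam` is a labelling of the darts (label of the tail) of a pointed map by distances.
`Dn m lam`: the down darts.  `τ` = contour permutation, `α` = next down dart along the face.
-/

namespace QRB

noncomputable section

open QR

/-- `y` is the first element after `x` (along `π`) which satisfies `p` -/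
def Hit {X : Type} (π : Equiv.Perm X) (p : X → Prop) (x y : X) : Prop :=
  ∃ k : ℕ, 0 < k ∧ (π ^ k) x = y ∧ p y ∧ ∀ j : ℕ, 0 < j → j < k → ¬ p ((π ^ j) x)

/-- a permutation with only one cycle -/
def OneCyc {C : Type} (τ : Equiv.Perm C) : Prop := ∀ x y, τ.SameCycle x y

/-- `y` is the first element after `x` with label `≤ lab y` -/
def Lo {C : Type} (τ : Equiv.Perm C) (lab : C → ℕ) (x y : C) : Prop :=
  Hit τ (fun z => lab z ≤ lab y) x y

/-- labels of a pointed map: `lam d` is the distance of the tail of `d` to the marked vertex -/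
structure PLM {D : Type} (m : RMap D) (lam : D → ℕ) : Prop where
  rot : ∀ d, lam (m.rot d) = lam d
  opp : ∀ d, lam (m.opp d) = lam d + 1 ∨ lam (m.opp d) + 1 = lam d
  low : ∀ d, 1 ≤ lam d → ∃ d', m.rot.SameCycle d d' ∧ lam (m.opp d') + 1 = lam d'
  zero : ∀ d d', lam d = 0 → lam d' = 0 → m.rot.SameCycle d d'
  ex : ∃ d, lam d = 0

/-- `d` is a down dart -/
def Des {D : Type} (m : RMap D) (lam : D → ℕ) (d : D) : Prop := lam (m.opp d) + 1 = lam d

/-- the type of down darts -/
abbrev Dn {D : Type} (m : RMap D) (lam : D → ℕ) : Type := {d : D // Des m lam d}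

/-- the label of a down dart -/
def lb {D : Type} (m : RMap D) (lam : D → ℕ) (c : Dn m lam) : ℕ := lam c.1

/-- the contour structure of a pointed map, with the rules which determine the map from
`τ`, `α` and the labels -/
structure MCode {D : Type} (m : RMap D) (lam : D → ℕ) (τ α : Equiv.Perm (Dn m lam)) : Prop where
  ve : ∀ c : Dn m lam, lam (τ c).1 = lam (α c).1
  down : ∀ c : Dn m lam, lam c.1 ≤ lam (τ c).1 + 1
  ha : ∀ c : Dn m lam, Hit m.face (Des m lam) c.1 (α c).1
  ht : ∀ c : Dn m lam, Hit m.rot⁻¹ (Des m lam) (α c).1 (τ c).1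
  cyc : OneCyc τ
  fa : ∀ c : Dn m lam, lam (τ c).1 + 1 = lam c.1 → m.face c.1 = (α c).1
  fb : ∀ c y : Dn m lam, lam c.1 ≤ lam (τ c).1 → Lo τ (lb m lam) c y → lam y.1 = lam c.1 →
    m.face c.1 = m.opp y.1
  fc : ∀ c x y : Dn m lam, lam c.1 ≤ lam x.1 → Lo τ (lb m lam) c x → Lo τ (lb m lam) c y →
    lam y.1 = lam x.1 + 1 → m.face (m.opp x.1) = m.opp y.1
  fd : ∀ c : Dn m lam, lam c.1 ≤ lam (τ c).1 → m.face (m.opp (τ c).1) = (α c).1

/-- abstract code: contour `τ` (one cycle), `α`, labels, vertices `V`, faces `F` with the outer face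
`O`, and the Euler relation of a tree -/
structure LCode {C V F : Type} (τ α : Equiv.Perm C)
    (lab : C → ℕ) (vt : C → V) (fc : C → F) (O : F) : Prop where
  cyc : OneCyc τ
  vt_eq : ∀ c, vt (τ c) = vt (α c)
  fc_eq : ∀ c, fc (α c) = fc c
  vt_surj : Function.Surjective vt
  fc_surj : Function.Surjective fc
  euler : Nat.card V + Nat.card F = Nat.card C + 1
  lab_vt : ∀ c c', vt c = vt c' → lab c = lab c'
  down : ∀ c, lab c ≤ lab (τ c) + 1
  pos : ∀ c, 1 ≤ lab c
  one : ∃ c, lab c = 1
  inv : ∀ c, fc c ≠ O → α (α c) = c ∧ α c ≠ c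
  outer : ∀ c c', fc c = O → fc c' = O → α.SameCycle c c'

/-- `Enc τ α lab t x z`: the contour path from `x` to `z` is the contour of the tree `t` -/
inductive Enc {C : Type} (τ α : Equiv.Perm C) (lab : C → ℕ) : LT → C → C → Prop
  | nil (x : C) : Enc τ α lab LT.nil x x
  | cons (x z : C) (δ : Fin 3) (t s : LT) (hne : x ≠ z) (hi : α (α x) = x)
      (hl : (lab (τ x) : ℤ) = LT.ch (lab x) δ) (h1 : Enc τ α lab t (τ x) (α x))
      (h2 : Enc τ α lab s (τ (α x)) z) : Enc τ α lab (LT.cons δ t s) x z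

end

end QRB
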