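import Pool.Agent.Helper88.QR.B19c
import Pool.Agent.Helper58.CP.Final
import Pool.Agent.Helper78.QR.B03
import Pool.Agent.Helper17.QR.B04
import Pool.Agent.Helper1.QR.B05
import Pool.Agent.Helper74.QB.B06
import Pool.Agent.Helper62.QR.B07
import Pool.Agent.Helper78.QR.B08
import Pool.Agent.Helper79.QR.B09
import Pool.Agent.Helper51.QR.B10
import Pool.Agent.Helper78.QR.B11
import Pool.Agent.Helper78.QR.B12
import Pool.Agent.Helper78.QR.B13
import Pool.Agent.Helper28.QR.B14
import Pool.Agent.Helper48.QR.B15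
import Pool.Agent.Helper74.QB.B16
import Pool.Agent.Helper79.QR.B17
import Pool.Agent.Helper62.QR.B18

/-!
# Block B of QR: everything except the row B02
-/

namespace QRB

theorem st_B_of_B02 (h02 : ST_B02) : QR.ST_B :=
  st_ST_B h02 (st_B04 st_B03) (st_B08 (QRB74.st_B06 st_B05) (st_B07 st_B05)) st_B09 st_B10
    (st_B12 st_B09 (st_B11 st_B10)) (st_B15 QR.pl) QRB74.st_B16 st_B17
    (st_B18 (st_B04 st_B03) (st_B13 st_B10) QRB28.st_B14)

end QRB
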