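import Pool.Agent.Helper88.QR.DefsB

/-!
# Block B of QR: row statements
-/

namespace QRB

noncomputable section

open QR Classical

/-- B02. the contour structure of a pointed map -/
def ST_B02 : Prop :=
  ∀ (D : Type) [Fintype D] (m : RMap D) (lam : D → ℕ), PLM m lam →
    ∃ τ α : Equiv.Perm (Dn m lam), MCode m lam τ α

/-- B03. half of the darts of a face are down darts -/
def ST_B03 : Prop :=
  ∀ (D : Type) [Fintype D] (m : RMap D) (lam : D → ℕ), PLM m lam →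
    ∀ d, 2 * Nat.card {c : Dn m lam // m.face.SameCycle d c.1} = m.fdeg d

/-- B04. the contour structure of a pointed quadrangulation is a code -/
def ST_B04 : Prop :=
  ∀ (D : Type) [Fintype D] (m : RMap D) (o : D) (N P : ℕ) (lam : D → ℕ) (v0 : m.Vert)
    (τ α : Equiv.Perm (Dn m lam)), 1 ≤ P → m.IsQuad o N P → PLM m lam →
    (∀ d, lam d = 0 ↔ m.tail d = v0) → MCode m lam τ α →
    Nat.card (Dn m lam) = 2 * N + P ∧ Nat.card {v : m.Vert // v ≠ v0} = N + P ∧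
    Nat.card {c : Dn m lam // m.fc c.1 = m.fc o} = P ∧
    ∃ vt : Dn m lam → {v : m.Vert // v ≠ v0}, (∀ c, (vt c).1 = m.tail c.1) ∧
      LCode τ α (lb m lam) vt (fun c => m.fc c.1) (m.fc o)

/-- B05. the corners between `x` and `α x` are closed under `α` (no crossing) -/
def ST_B05 : Prop :=
  ∀ (C V F : Type) [Finite C] [Finite V] [Finite F] (τ α : Equiv.Perm C) (lab : C → ℕ)
    (vt : C → V) (fc : C → F) (O : F), LCode τ α lab vt fc O →
    ∀ (x : C) (j : ℕ), 1 ≤ j → j < Nat.card C → α x = (τ ^ j) x →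
      ∀ i, 1 ≤ i → i < j → ∃ i', 1 ≤ i' ∧ i' < j ∧ α ((τ ^ i) x) = (τ ^ i') x

/-- B06. from an outer corner to the next one -/
def ST_B06 : Prop :=
  ∀ (C V F : Type) [Finite C] [Finite V] [Finite F] (τ α : Equiv.Perm C) (lab : C → ℕ)
    (vt : C → V) (fc : C → F) (O : F), LCode τ α lab vt fc O →
    ∀ b, fc b = O → ∃ j, 1 ≤ j ∧ j ≤ Nat.card C ∧ α b = (τ ^ j) b ∧
      ∀ i, 1 ≤ i → i < j → fc ((τ ^ i) b) ≠ O ∧ ∃ i', 1 ≤ i' ∧ i' < j ∧ α ((τ ^ i) b) = (τ ^ i') b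

/-- B07. a closed interval of corners is the contour of a tree -/
def ST_B07 : Prop :=
  ∀ (C V F : Type) [Finite C] [Finite V] [Finite F] (τ α : Equiv.Perm C) (lab : C → ℕ)
    (vt : C → V) (fc : C → F) (O : F), LCode τ α lab vt fc O →
    ∀ (k : ℕ) (a : C), k < Nat.card C →
      (∀ i < k, fc ((τ ^ i) a) ≠ O ∧ ∃ j < k, α ((τ ^ i) a) = (τ ^ j) a) →
      ∃ t : LT, Enc τ α lab t a ((τ ^ k) a) ∧ 2 * t.edges = k

/-- `T b` is the tree between the outer corner `b` and the next outer corner `α b` -/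
structure TreeAt {C F : Type} (τ α : Equiv.Perm C) (lab : C → ℕ) (fc : C → F) (O : F)
    (T : C → LT) : Prop where
  le : ∀ b, fc b = O → 2 * (T b).edges + 1 ≤ Nat.card C
  nx : ∀ b, fc b = O → α b = (τ ^ (2 * (T b).edges + 1)) b
  inner : ∀ b, fc b = O → ∀ i, 1 ≤ i → i < 2 * (T b).edges + 1 → fc ((τ ^ i) b) ≠ O
  enc : ∀ b, fc b = O → Enc τ α lab (T b) (τ b) (α b)

/-- B08. the trees -/
def ST_B08 : Prop :=
  ∀ (C V F : Type) [Finite C] [Finite V] [Finite F] (τ α : Equiv.Perm C) (lab : C → ℕ)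
    (vt : C → V) (fc : C → F) (O : F), LCode τ α lab vt fc O → ∃ T : C → LT, TreeAt τ α lab fc O T

/-- B09. the contours of the trees cover all corners exactly once -/
def ST_B09 : Prop :=
  ∀ (C F : Type) [Fintype C] (τ α : Equiv.Perm C) (lab : C → ℕ) (fc : C → F) (O : F)
    (T : C → LT), OneCyc τ → (∃ b, fc b = O) → TreeAt τ α lab fc O T → (∀ c, fc (α c) = fc c) →
    ∀ g : C → ℕ, ∑ c, g c =
      ∑ b with fc b = O, ∑ i ∈ Finset.Ico 1 (2 * (T b).edges + 2), g ((τ ^ i) b)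

/-- B10. lengths, uniqueness, corners, positivity for contours of trees -/
def ST_B10 : Prop :=
  ∀ (C : Type) (τ α : Equiv.Perm C) (lab : C → ℕ) (t : LT) (a z : C), Enc τ α lab t a z →
    (τ ^ (2 * t.edges)) a = z ∧
    (∀ t', Enc τ α lab t' a z → t' = t) ∧
    ((∀ c, lab (τ c) = lab (α c)) →
      (∀ k : ℤ, t.cor k (lab a) =
        ∑ i ∈ Finset.range (2 * t.edges + 1), if (lab ((τ ^ i) a) : ℤ) = k then 1 else 0) ∧
      ((∀ c, 1 ≤ lab c) → t.ge 1 (lab a)))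

/-- B11. last corners of the vertices of a tree -/
def ST_B11 : Prop :=
  ∀ (C V : Type) (τ α : Equiv.Perm C) (lab : C → ℕ) (vt : C → V) (t : LT) (a z : C),
    Enc τ α lab t a z → (∀ c, vt (τ c) = vt (α c)) → (∀ c c', vt c = vt c' → lab c = lab c') →
    ∃ Z : List C, Z.length = t.edges + 1 ∧
      (∀ i ≤ 2 * t.edges, ∃ y ∈ Z, vt ((τ ^ i) a) = vt y) ∧
      (∀ r : ℤ, (Z.filter (fun y => decide ((lab y : ℤ) ≤ r))).length =
        (if (lab a : ℤ) ≤ r then 1 else 0) + t.low r (lab a))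

/-- B12. the number of vertices with label at most `r` -/
def ST_B12 : Prop :=
  ∀ (C V F : Type) [Fintype C] [Finite V] [Finite F] (τ α : Equiv.Perm C) (lab : C → ℕ)
    (vt : C → V) (fc : C → F) (O : F) (T : C → LT), LCode τ α lab vt fc O →
    TreeAt τ α lab fc O T → (∑ b with fc b = O, ((T b).edges + 1)) = Nat.card V →
    ∀ r : ℤ, Nat.card {v : V // ∃ c, vt c = v ∧ (lab c : ℤ) ≤ r} =
      ∑ b with fc b = O, ((if (lab (α b) : ℤ) ≤ r then 1 else 0) + (T b).low r (lab (α b)))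

/-- B13. two codes with the same trees and the same labels of the outer corners are isomorphic -/
def ST_B13 : Prop :=
  ∀ (C C' : Type) [Fintype C] [Fintype C'] (τ α : Equiv.Perm C) (lab : C → ℕ)
    (τ' α' : Equiv.Perm C') (lab' : C' → ℕ) (β : ℕ → C) (β' : ℕ → C') (T : ℕ → LT),
    Fintype.card C = Fintype.card C' → OneCyc τ → OneCyc τ' →
    (∀ c, lab (τ c) = lab (α c)) → (∀ c, lab' (τ' c) = lab' (α' c)) →
    (∀ j, α (β j) = β (j + 1)) → (∀ j, α' (β' j) = β' (j + 1)) →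
    (∀ j, lab (β j) = lab' (β' j)) →
    (∀ j, Enc τ α lab (T j) (τ (β j)) (β (j + 1))) →
    (∀ j, Enc τ' α' lab' (T j) (τ' (β' j)) (β' (j + 1))) →
    ∃ Ψ : C ≃ C', Ψ (β 0) = β' 0 ∧ (∀ c, Ψ (τ c) = τ' (Ψ c)) ∧ (∀ c, Ψ (α c) = α' (Ψ c)) ∧
      ∀ c, lab' (Ψ c) = lab c

/-- B14. an isomorphism of the codes extends to an isomorphism of the maps -/
def ST_B14 : Prop :=
  ∀ (D D' : Type) [Fintype D] [Fintype D'] (m : RMap D) (m' : RMap D') (lam : D → ℕ)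
    (lam' : D' → ℕ) (τ α : Equiv.Perm (Dn m lam)) (τ' α' : Equiv.Perm (Dn m' lam')),
    PLM m lam → PLM m' lam' → MCode m lam τ α → MCode m' lam' τ' α' →
    ∀ Ψ : Dn m lam ≃ Dn m' lam', (∀ c, Ψ (τ c) = τ' (Ψ c)) → (∀ c, Ψ (α c) = α' (Ψ c)) →
      (∀ c, lam' (Ψ c).1 = lam c.1) →
      ∃ Φ : D ≃ D', (∀ d, Φ (m.rot d) = m'.rot (Φ d)) ∧ (∀ d, Φ (m.opp d) = m'.opp (Φ d)) ∧
        (∀ c : Dn m lam, Φ c.1 = (Ψ c).1) ∧ ∀ d, lam' (Φ d) = lam d

/-- distance of the tail of `d` to `v0` -/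
def lamD {D : Type} (m : RMap D) (v0 : m.Vert) (d : D) : ℕ :=
  sInf {r | SPR.Near m.mult r v0 (m.tail d)}

/-- B15. the distances to a vertex of a quadrangulation form a labelling -/
def ST_B15 : Prop :=
  ∀ (D : Type) [Fintype D] (m : RMap D) (o : D) (N P : ℕ) (v0 : m.Vert), m.IsQuad o N P →
    PLM m (lamD m v0) ∧ (∀ d, lamD m v0 d = 0 ↔ m.tail d = v0) ∧
    ∀ (d : D) (r : ℕ), lamD m v0 d ≤ r ↔ SPR.Near m.mult r v0 (m.tail d)

/-- B16. the degree of a vertex is the number of darts -/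
def ST_B16 : Prop :=
  ∀ (D : Type) [Fintype D] (m : RMap D) (v : m.Vert),
    SPR.deg m.mult v = Nat.card {d : D // m.tail d = v}

/-- B17. the outer down darts in terms of the boundary walk -/
def ST_B17 : Prop :=
  ∀ (D : Type) [Fintype D] (m : RMap D) (o : D) (P : ℕ) (lam : D → ℕ), PLM m lam →
    m.fdeg o = 2 * P → 1 ≤ P → ∀ G : D → ℕ,
      ∑ i ∈ dn P (fun i => (lam ((m.face ^ i) o) : ℤ)), G ((m.face ^ i) o) =
        ∑ c : Dn m lam with m.fc c.1 = m.fc o, G c.1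

/-- B18. two rooted maps with the same code are isomorphic -/
def ST_B18 : Prop :=
  ∀ (D D' : Type) [Fintype D] [Fintype D'] (m : RMap D) (m' : RMap D') (o : D) (o' : D')
    (N P : ℕ) (lam : D → ℕ) (lam' : D' → ℕ) (v0 : m.Vert) (v0' : m'.Vert)
    (τ α : Equiv.Perm (Dn m lam)) (τ' α' : Equiv.Perm (Dn m' lam')) (T : ℤ → LT),
    1 ≤ P → m.IsQuad o N P → m'.IsQuad o' N P → PLM m lam → PLM m' lam' →
    (∀ d, lam d = 0 ↔ m.tail d = v0) → (∀ d, lam' d = 0 ↔ m'.tail d = v0') →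
    MCode m lam τ α → MCode m' lam' τ' α' →
    (∀ i : ℤ, lam ((m.face ^ i) o) = lam' ((m'.face ^ i) o')) →
    (∀ (i : ℤ) (h : Des m lam ((m.face ^ i) o)),
      Enc τ α (lb m lam) (T i) (τ (α⁻¹ ⟨(m.face ^ i) o, h⟩)) ⟨(m.face ^ i) o, h⟩) →
    (∀ (i : ℤ) (h : Des m' lam' ((m'.face ^ i) o')),
      Enc τ' α' (lb m' lam') (T i) (τ' (α'⁻¹ ⟨(m'.face ^ i) o', h⟩)) ⟨(m'.face ^ i) o', h⟩) →
    ∃ Φ : D ≃ D', (∀ d, Φ (m.rot d) = m'.rot (Φ d)) ∧ (∀ d, Φ (m.opp d) = m'.opp (Φ d)) ∧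
      Φ o = o' ∧ ∀ d, lam' (Φ d) = lam d

end

end QRB
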